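import Mathlib
import Pool.Agent.H21.UC.Stm
import Pool.Graph.R_pool_sql_team_seeded_efc1946e.K1H34.UHC.Main
import Pool.Graph.R_seed8.TH855.CF

set_option autoImplicit false

/-!
# Project KC: part COR, `c(F) ≤ 1` for all three-colourable graphs
-/

namespace Pool.Agent.H41.UC

open Finset Classical Filter Pool.Agent.TH855 Pool.Agent.Helper311.Glue Pool.Agent.H21.UC
open Pool.Agent.K1H34
open scoped ENNReal

theorem upTo_one (h : S_ALL) {W : Type} [Fintype W] (F : SimpleGraph W) (hF : F.Colorable 3) :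
    UpTo F 1 := by
  obtain ⟨col⟩ := hF
  intro ε hε
  obtain ⟨y0, hy0⟩ := h (Fintype.card W + 1) (Fintype.card W) (Nat.succ_pos _) ε hε
  refine ⟨max ⌈Real.exp y0⌉₊ 3, fun Δ hΔ V _ G _ hfree hmax => ?_⟩
  have h3 : 3 ≤ Δ := (le_max_right _ _).trans hΔ
  have hΔ3 : (3 : ℝ) ≤ Δ := by exact_mod_cast h3
  have hΔ0 : (0 : ℝ) < Δ := by linarith
  have hexp : Real.exp (Real.log Δ) = Δ := Real.exp_log hΔ0
  have hy : y0 ≤ Real.log Δ := by
    rw [Real.le_log_iff_exp_le hΔ0]
    have h1 : ⌈Real.exp y0⌉₊ ≤ Δ := (le_max_left _ _).trans hΔ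
    exact (Nat.le_ceil _).trans (by exact_mod_cast h1)
  obtain ⟨k, hk, c, a, b⟩ := hy0 (Real.log Δ) hy V G (UHC.rare_of_free F col G hfree) (by
    intro u
    rw [hexp]
    have h1 : (UNI.nb G u).card ≤ Δ := by
      rw [← hmax]
      refine le_trans (le_of_eq ?_) (G.degree_le_maxDegree u)
      rw [← SimpleGraph.card_neighborFinset_eq_degree]
      congr 1
      ext v
      rw [SimpleGraph.mem_neighborFinset]
      simp [UNI.nb]
    exact_mod_cast h1)
  rw [hexp] at hk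
  refine ⟨k, ⟨SimpleGraph.Coloring.mk (fun v => (⟨c v, a v (Finset.mem_univ v)⟩ : Fin k)) ?_⟩, ?_⟩
  · intro u v huv h4
    exact b u (Finset.mem_univ u) v (Finset.mem_univ v) huv (congrArg Fin.val h4)
  · refine hk.trans ?_
    rw [mul_div_assoc]

theorem c_one (h : S_ALL) {W : Type} [Fintype W] (F : SimpleGraph W) (hF : F.Colorable 3) :
    c F ≤ 1 := by
  have h := c_le_of_upTo F 1 (by norm_num) (upTo_one h F hF)
  refine h.trans (le_of_eq ?_)
  rw [ENNReal.ofReal_one]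

/-- The statement without definitions: for every three-colourable graph `F` and every `ε > 0`
every `F`-free graph of large maximum degree `Δ` has chromatic number at most
`(1 + ε) Δ / log Δ`. -/
theorem final (h : S_ALL) (k : ℕ) (F : SimpleGraph (Fin k)) (hF : F.Colorable 3) (ε : ℝ)
    (hε : 0 < ε) :
    ∃ Δ₀ : ℕ, ∀ Δ : ℕ, Δ₀ ≤ Δ →
      ∀ (V : Type) [Fintype V] (G : SimpleGraph V) [DecidableRel G.Adj],
        F.Free G → G.maxDegree = Δ →
          ∃ n : ℕ, G.Colorable n ∧ (n : ℝ) ≤ (1 + ε) * ((Δ : ℝ) / Real.log (Δ : ℝ)) :=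
  upTo_one h F hF ε hε

end Pool.Agent.H41.UC
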