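import Mathlib
import Pool.Agent.H21.UC.Tree

set_option autoImplicit false

/-!
# Project KC: part PAIR, two far vertices are picked almost independently
-/

namespace Pool.Agent.H41.UC

open Finset Classical Pool.Agent.H21.UC
open Pool.Agent.K1H34.UNI (nb Pr es KK TT Dep)

variable {X : Type} [Fintype X] {Γ : SimpleGraph X} {P : Par} {s : St X}

theorem gain_prod (hP : P.Ok) (h : Inv Γ P s) (v : X) :
    gain Γ P.q s.1 v * ∏ u ∈ insert v (nb Γ v), (1 - P.q * s.1 u) = 1 - P.q * s.1 v := by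
  rw [Finset.prod_insert (notMem_nb_self v), h.gain_eq hP, Finset.prod_inv_distrib]
  have h2 : ∏ u ∈ nb Γ v, (1 - P.q * s.1 u) ≠ 0 :=
    Finset.prod_ne_zero_iff.2 fun u _ => (h.one_sub_pos hP u).ne'
  field_simp

theorem ind_mul_pre (A : Finset X) (u v : X) :
    ind (u ∈ A) * pre Γ P.q s.1 A v =
      s.1 v * gain Γ P.q s.1 v * (if u ∈ A ∧ Disjoint A (insert v (nb Γ v)) then 1 else 0) := by
  unfold pre ind
  by_cases h1 : u ∈ A
  · by_cases h2 : Disjoint A (insert v (nb Γ v))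
    · rw [if_pos h1, if_pos h2, if_pos ⟨h1, h2⟩]; ring
    · rw [if_pos h1, if_neg h2, if_neg (fun h => h2 h.2)]; ring
  · rw [if_neg h1, zero_mul, if_neg (fun h => h1 h.1), mul_zero]

theorem pre_mul_pre (A : Finset X) (u v : X) :
    pre Γ P.q s.1 A u * pre Γ P.q s.1 A v =
      s.1 u * gain Γ P.q s.1 u * (s.1 v * gain Γ P.q s.1 v) *
        (if Disjoint A (insert u (nb Γ u) ∪ insert v (nb Γ v)) then 1 else 0) := by
  unfold pre
  by_cases h1 : Disjoint A (insert u (nb Γ u))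
  · by_cases h2 : Disjoint A (insert v (nb Γ v))
    · rw [if_pos h1, if_pos h2, if_pos (Finset.disjoint_union_right.2 ⟨h1, h2⟩)]; ring
    · rw [if_pos h1, if_neg h2, if_neg (fun h => h2 (Finset.disjoint_union_right.1 h).2)]; ring
  · rw [if_neg h1, if_neg (fun h => h1 (Finset.disjoint_union_right.1 h).1)]; ring

/-- activation of `u` and survival of a far vertex `v` -/
theorem sum_ind_pre (hP : P.Ok) (h : Inv Γ P s) {u v : X} (huv : u ∉ insert v (nb Γ v)) :
    ∑ A : Finset X, Pr P.q s.1 A * (ind (u ∈ A) * pre Γ P.q s.1 A v) ≤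
      P.q * (s.1 u * s.1 v) := by
  have h1 : ∀ A : Finset X, Pr P.q s.1 A * (ind (u ∈ A) * pre Γ P.q s.1 A v) =
      s.1 v * gain Γ P.q s.1 v *
        (Pr P.q s.1 A * (if u ∈ A ∧ Disjoint A (insert v (nb Γ v)) then 1 else 0)) := by
    intro A
    rw [ind_mul_pre]
    ring
  rw [Finset.sum_congr rfl fun A _ => h1 A, ← Finset.mul_sum, sum_Pr_mem _ _ _ huv]
  have h2 := gain_prod hP h v
  have h3 : s.1 v * gain Γ P.q s.1 v * (P.q * s.1 u *
      ∏ w ∈ insert v (nb Γ v), (1 - P.q * s.1 w)) =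
      P.q * (s.1 u * s.1 v) * (1 - P.q * s.1 v) := by
    rw [← h2]; ring
  rw [h3]
  refine mul_le_of_le_one_right ?_ ?_
  · exact mul_nonneg hP.q0.le (mul_nonneg (h u).1 (h v).1)
  · linarith [h.q_nonneg hP v]

/-- survival of two far vertices -/
theorem sum_pre_pre_far (hP : P.Ok) (h : Inv Γ P s) {u v : X}
    (huv : Disjoint (insert u (nb Γ u)) (insert v (nb Γ v))) :
    ∑ A : Finset X, Pr P.q s.1 A * (pre Γ P.q s.1 A u * pre Γ P.q s.1 A v) ≤
      s.1 u * s.1 v := by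
  have h1 : ∀ A : Finset X, Pr P.q s.1 A * (pre Γ P.q s.1 A u * pre Γ P.q s.1 A v) =
      s.1 u * gain Γ P.q s.1 u * (s.1 v * gain Γ P.q s.1 v) *
        (Pr P.q s.1 A *
          (if Disjoint A (insert u (nb Γ u) ∪ insert v (nb Γ v)) then 1 else 0)) := by
    intro A
    rw [pre_mul_pre]
    ring
  rw [Finset.sum_congr rfl fun A _ => h1 A, ← Finset.mul_sum, sum_Pr_disjoint,
    Finset.prod_union huv]
  have h2 := gain_prod hP h v
  have h3 := gain_prod hP h u
  have h4 : s.1 u * gain Γ P.q s.1 u * (s.1 v * gain Γ P.q s.1 v) *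
      ((∏ w ∈ insert u (nb Γ u), (1 - P.q * s.1 w)) *
        ∏ w ∈ insert v (nb Γ v), (1 - P.q * s.1 w)) =
      s.1 u * s.1 v * ((1 - P.q * s.1 u) * (1 - P.q * s.1 v)) := by
    rw [← h2, ← h3]; ring
  rw [h4]
  refine mul_le_of_le_one_right (mul_nonneg (h u).1 (h v).1) ?_
  exact mul_le_one₀ (by linarith [h.q_nonneg hP u]) (h.one_sub_pos hP v).le
    (by linarith [h.q_nonneg hP v])

theorem ind_both (A : Finset X) (u v : X) (l : List (Finset X)) :
    ind (u ∈ picked Γ P s (A :: l) ∧ v ∈ picked Γ P s (A :: l)) ≤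
      (ind (u ∈ A ∧ v ∈ A) + ind (u ∈ A) * ind (v ∈ picked Γ P (nx Γ P s A) l)) +
      (ind (v ∈ A) * ind (u ∈ picked Γ P (nx Γ P s A) l) +
        ind (u ∈ picked Γ P (nx Γ P s A) l ∧ v ∈ picked Γ P (nx Γ P s A) l)) := by
  have n1 := ind_nonneg (u ∈ A ∧ v ∈ A)
  have n2 := mul_nonneg (ind_nonneg (u ∈ A)) (ind_nonneg (v ∈ picked Γ P (nx Γ P s A) l))
  have n3 := mul_nonneg (ind_nonneg (v ∈ A)) (ind_nonneg (u ∈ picked Γ P (nx Γ P s A) l))
  have n4 := ind_nonneg (u ∈ picked Γ P (nx Γ P s A) l ∧ v ∈ picked Γ P (nx Γ P s A) l)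
  by_cases h : u ∈ picked Γ P s (A :: l) ∧ v ∈ picked Γ P s (A :: l)
  · rw [ind_true h]
    obtain ⟨hu, hv⟩ := h
    have hu' : u ∈ pk Γ s A ∪ picked Γ P (nx Γ P s A) l := hu
    have hv' : v ∈ pk Γ s A ∪ picked Γ P (nx Γ P s A) l := hv
    rcases Finset.mem_union.1 hu' with hu1 | hu1 <;> rcases Finset.mem_union.1 hv' with hv1 | hv1
    · rw [ind_true (⟨(mem_pk.1 hu1).2.1, (mem_pk.1 hv1).2.1⟩ : u ∈ A ∧ v ∈ A)]
      linarith
    · rw [ind_true (mem_pk.1 hu1).2.1, ind_true hv1]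
      linarith
    · rw [ind_true (mem_pk.1 hv1).2.1, ind_true hu1]
      linarith
    · rw [ind_true (⟨hu1, hv1⟩ : u ∈ picked Γ P (nx Γ P s A) l ∧
        v ∈ picked Γ P (nx Γ P s A) l)]
      linarith
  · rw [ind_false h]
    linarith

theorem picked_le' (hP : P.Ok) (h : Inv Γ P s) (v : X) (n : ℕ) :
    tree Γ P n s (fun l => ind (v ∈ picked Γ P s l)) ≤ n * (P.q * s.1 v) := by
  simp_rw [ind_eq]
  exact picked_le hP h v n

theorem sum_Pr_ind2 {u v : X} (huv : u ≠ v) :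
    ∑ A : Finset X, Pr P.q s.1 A * ind (u ∈ A ∧ v ∈ A) = P.q * s.1 u * (P.q * s.1 v) := by
  rw [← sum_Pr_mem2 P.q s.1 huv]
  refine Finset.sum_congr rfl fun A _ => ?_
  rw [ind_eq]

/-- **PAIR.** -/
theorem pair_far (hP : P.Ok) {u v : X}
    (huv : Disjoint (insert u (nb Γ u)) (insert v (nb Γ v))) (n : ℕ) : ∀ s : St X, Inv Γ P s →
    tree Γ P n s (fun l => ind (u ∈ picked Γ P s l ∧ v ∈ picked Γ P s l)) ≤
      (P.q * n) ^ 2 * (s.1 u * s.1 v) := by
  have hu : u ∉ insert v (nb Γ v) := Finset.disjoint_left.1 huv (Finset.mem_insert_self _ _)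
  have hv : v ∉ insert u (nb Γ u) := fun h =>
    Finset.disjoint_left.1 huv h (Finset.mem_insert_self _ _)
  have hne : u ≠ v := fun h => hu (h ▸ Finset.mem_insert_self _ _)
  induction n with
  | zero =>
    intro s _
    show ind (u ∈ picked Γ P s [] ∧ v ∈ picked Γ P s []) ≤ _
    rw [ind_false (fun h => by
      have := h.1
      unfold picked at this
      exact Finset.notMem_empty _ this)]
    simp
  | succ n ih =>
    intro s h
    unfold tree
    have hq0 := hP.q0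
    have hx0 := fun w => (h w).1
    have h1 : ∀ A : Finset X, tree Γ P n (nx Γ P s A)
        (fun l => ind (u ∈ picked Γ P s (A :: l) ∧ v ∈ picked Γ P s (A :: l))) ≤
        ind (u ∈ A ∧ v ∈ A) + n * P.q * (ind (u ∈ A) * pre Γ P.q s.1 A v) +
        n * P.q * (ind (v ∈ A) * pre Γ P.q s.1 A u) +
        (P.q * n) ^ 2 * (pre Γ P.q s.1 A u * pre Γ P.q s.1 A v) := by
      intro A
      have hs' := h.nx hP A
      refine (tree_mono hP n _ hs' _ _ fun l => ind_both A u v l).trans ?_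
      rw [tree_add, tree_add, tree_add, tree_const, tree_smul, tree_smul]
      have h3 := picked_le' hP hs' u n
      have h4 := picked_le' hP hs' v n
      have h5 := ih _ hs'
      have h6 : (n : ℝ) * (P.q * (nx Γ P s A).1 u) ≤ n * (P.q * pre Γ P.q s.1 A u) :=
        mul_le_mul_of_nonneg_left (mul_le_mul_of_nonneg_left (h.nx_le A u) hq0.le)
          (Nat.cast_nonneg _)
      have h7 : (n : ℝ) * (P.q * (nx Γ P s A).1 v) ≤ n * (P.q * pre Γ P.q s.1 A v) :=
        mul_le_mul_of_nonneg_left (mul_le_mul_of_nonneg_left (h.nx_le A v) hq0.le)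
          (Nat.cast_nonneg _)
      have h10 := mul_le_mul_of_nonneg_left (h4.trans h7) (ind_nonneg (u ∈ A))
      have h11 := mul_le_mul_of_nonneg_left (h3.trans h6) (ind_nonneg (v ∈ A))
      have h12 : (P.q * n) ^ 2 * ((nx Γ P s A).1 u * (nx Γ P s A).1 v) ≤
          (P.q * n) ^ 2 * (pre Γ P.q s.1 A u * pre Γ P.q s.1 A v) :=
        mul_le_mul_of_nonneg_left (mul_le_mul (h.nx_le A u) (h.nx_le A v) (h.nx_nonneg A v)
          (h.pre_nonneg A u)) (sq_nonneg _)
      linarith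
    refine (Finset.sum_le_sum fun A _ => mul_le_mul_of_nonneg_left (h1 A)
      (h.Pr_nonneg hP A)).trans ?_
    have h2 : ∑ A : Finset X, Pr P.q s.1 A *
        (ind (u ∈ A ∧ v ∈ A) + n * P.q * (ind (u ∈ A) * pre Γ P.q s.1 A v) +
        n * P.q * (ind (v ∈ A) * pre Γ P.q s.1 A u) +
        (P.q * n) ^ 2 * (pre Γ P.q s.1 A u * pre Γ P.q s.1 A v)) =
        ∑ A : Finset X, Pr P.q s.1 A * ind (u ∈ A ∧ v ∈ A) +
        n * P.q * ∑ A : Finset X, Pr P.q s.1 A * (ind (u ∈ A) * pre Γ P.q s.1 A v) +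
        n * P.q * ∑ A : Finset X, Pr P.q s.1 A * (ind (v ∈ A) * pre Γ P.q s.1 A u) +
        (P.q * n) ^ 2 * ∑ A : Finset X, Pr P.q s.1 A *
          (pre Γ P.q s.1 A u * pre Γ P.q s.1 A v) := by
      rw [Finset.mul_sum, Finset.mul_sum, Finset.mul_sum, ← Finset.sum_add_distrib,
        ← Finset.sum_add_distrib, ← Finset.sum_add_distrib]
      refine Finset.sum_congr rfl fun A _ => ?_
      ring
    rw [h2, sum_Pr_ind2 hne]
    have hnq : 0 ≤ (n : ℝ) * P.q := mul_nonneg (Nat.cast_nonneg _) hq0.le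
    have e1 := mul_le_mul_of_nonneg_left (sum_ind_pre hP h hu) hnq
    have e2 := mul_le_mul_of_nonneg_left (sum_ind_pre hP h hv) hnq
    have e3 := mul_le_mul_of_nonneg_left (sum_pre_pre_far hP h huv) (sq_nonneg (P.q * n))
    push_cast
    nlinarith

end Pool.Agent.H41.UC
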